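import Pool.Agent.H3.PK.Targets

/-!
# MP_7886dd_an: module WS
-/

set_option autoImplicit false

open MeasureTheory Metric Set Filter
open scoped ComplexConjugate Topology

namespace Pool.Agent.H90.PK

open Pool.Agent.H3.PK

/-- the rotation by `exp (iπ/N)` moves the points of the sphere by at most `π / N` -/
lemma dist_rot {n : ℕ} (N : ℕ) (hN : 1 ≤ N) (z : S n) (hc : ‖Complex.exp ((Real.pi / N : ℝ) * Complex.I)‖ = 1) :
    dist (act (rot n (Complex.exp ((Real.pi / N : ℝ) * Complex.I)) hc) z) z ≤ Real.pi / N := by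
  rw [Subtype.dist_eq, act_coe, rot_apply, dist_eq_norm]
  have h1 : Complex.exp ((Real.pi / N : ℝ) * Complex.I) • (z : E n) - (z : E n)
      = (Complex.exp ((Real.pi / N : ℝ) * Complex.I) - 1) • (z : E n) := by
    rw [sub_smul, one_smul]
  have h2 : ‖(z : E n)‖ = 1 := mem_sphere_zero_iff_norm.1 z.2
  rw [h1, norm_smul, h2, mul_one]
  have h3 : ‖Complex.exp (Complex.I * (Real.pi / N : ℝ)) - 1‖ ≤ ‖(Real.pi / N : ℝ)‖ :=
    Real.norm_exp_I_mul_ofReal_sub_one_le
  rw [mul_comm Complex.I] at h3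
  refine h3.trans (le_of_eq ?_)
  rw [Real.norm_eq_abs, abs_of_nonneg (by positivity)]

/-- the estimate for continuous functions -/
lemma ws_cont {n : ℕ} {σ : Measure (S n)} (hσ : Inv σ) {g : S n → ℝ} (hg : Continuous g)
    {ε : ℝ} (hε : 0 < ε) : ∃ N₀ : ℕ, ∀ N : ℕ, N₀ ≤ N → ∀ p : MvPolynomial (Fin n) ℂ, Ball1 N p →
    ‖∫ z, (g z : ℂ) * ev p z ∂σ‖ ≤ ε := by
  have := hσ.prob
  have huc : UniformContinuous g := CompactSpace.uniformContinuous_of_continuous hg
  rw [Metric.uniformContinuous_iff] at huc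
  obtain ⟨δ, hδ, huc⟩ := huc ε hε
  obtain ⟨N₁, hN₁⟩ := exists_nat_gt (Real.pi / δ)
  refine ⟨max N₁ 1, fun N hN p hp => ?_⟩
  have hN1 : 1 ≤ N := le_trans (le_max_right _ _) hN
  have hN2 : N₁ ≤ N := le_trans (le_max_left _ _) hN
  have hNpos : (0 : ℝ) < N := by exact_mod_cast hN1
  have hc : ‖Complex.exp ((Real.pi / N : ℝ) * Complex.I)‖ = 1 :=
    Complex.norm_exp_ofReal_mul_I _
  set U := rot n (Complex.exp ((Real.pi / N : ℝ) * Complex.I)) hc with hU
  have hsmall : Real.pi / N < δ := by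
    rw [div_lt_iff₀ hNpos]
    rw [div_lt_iff₀ hδ] at hN₁
    have : (N₁ : ℝ) ≤ N := by exact_mod_cast hN2
    nlinarith
  have hev : ∀ z : S n, ev p (act U z) = -ev p z := by
    intro z
    rw [act_coe, hU, rot_apply, ev_smul hp.1, ← Complex.exp_nat_mul]
    have : (N : ℂ) * ((Real.pi / N : ℝ) * Complex.I) = Real.pi * Complex.I := by
      push_cast
      have : (N : ℂ) ≠ 0 := by exact_mod_cast (by omega : N ≠ 0)
      field_simp
    rw [this, Complex.exp_pi_mul_I]
    ring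
  have h1 := hσ.integral U (fun z : S n => (g z : ℂ) * ev p z)
  simp only [hev] at h1
  have hcont1 : Continuous fun z : S n => (g z : ℂ) * ev p z :=
    (Complex.continuous_ofReal.comp hg).mul (continuous_evS p)
  have hcont2 : Continuous fun z : S n => (g (act U z) : ℂ) * -ev p z :=
    (Complex.continuous_ofReal.comp (hg.comp (continuous_act U))).mul (continuous_evS p).neg
  have h2 : 2 * ∫ z, (g z : ℂ) * ev p z ∂σ
      = ∫ z, ((g z : ℂ) - (g (act U z) : ℂ)) * ev p z ∂σ := by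
    have h3 : ∫ z, ((g z : ℂ) - (g (act U z) : ℂ)) * ev p z ∂σ
        = ∫ z, ((g z : ℂ) * ev p z + (g (act U z) : ℂ) * -ev p z) ∂σ := by
      congr 1
      ext z
      ring
    rw [h3, integral_add (integrable_cont σ hcont1) (integrable_cont σ hcont2), h1]
    ring
  have h4 : ‖∫ z, ((g z : ℂ) - (g (act U z) : ℂ)) * ev p z ∂σ‖ ≤ ε * σ.real univ := by
    refine norm_integral_le_of_norm_le_const (Eventually.of_forall fun z => ?_)
    rw [norm_mul]
    have h5 : ‖(g z : ℂ) - (g (act U z) : ℂ)‖ ≤ ε := by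
      rw [← Complex.ofReal_sub, Complex.norm_real, ← dist_eq_norm, dist_comm]
      exact (huc ((dist_rot N hN1 z hc).trans_lt hsmall)).le
    calc ‖(g z : ℂ) - (g (act U z) : ℂ)‖ * ‖ev p z‖ ≤ ε * 1 :=
          mul_le_mul h5 (hp.2 z) (norm_nonneg _) hε.le
      _ = ε := mul_one _
  rw [← h2, norm_mul] at h4
  have h6 : σ.real univ = 1 := by simp
  rw [h6, mul_one] at h4
  have h7 : ‖(2 : ℂ)‖ = 2 := by simp
  rw [h7] at h4
  linarith [norm_nonneg (∫ z, (g z : ℂ) * ev p z ∂σ)]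

/-- WS -/
theorem ws : T_WS := by
  intro n σ hσ g hg ε hε
  have := hσ.prob
  obtain ⟨g', -, hg1, hg2, hg3⟩ := hg.exists_hasCompactSupport_integral_sub_le (half_pos hε)
  obtain ⟨N₀, hN₀⟩ := ws_cont hσ hg2 (half_pos hε)
  refine ⟨N₀, fun N hN p hp => ?_⟩
  have h1 := hN₀ N hN p hp
  have hi1 : Integrable (fun z : S n => (g' z : ℂ) * ev p z) σ :=
    integrable_cont σ ((Complex.continuous_ofReal.comp hg2).mul (continuous_evS p))
  have hi2 : Integrable (fun z : S n => ((g z - g' z : ℝ) : ℂ) * ev p z) σ := by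
    refine Integrable.mul_bdd (c := 1) ?_ (continuous_evS p).aestronglyMeasurable
      (Eventually.of_forall hp.2)
    exact (hg.sub hg3).ofReal
  have h2 : ∫ z, (g z : ℂ) * ev p z ∂σ
      = ∫ z, ((g z - g' z : ℝ) : ℂ) * ev p z ∂σ + ∫ z, (g' z : ℂ) * ev p z ∂σ := by
    rw [← integral_add hi2 hi1]
    congr 1
    ext z
    push_cast
    ring
  have h3 : ‖∫ z, ((g z - g' z : ℝ) : ℂ) * ev p z ∂σ‖ ≤ ∫ z, ‖g z - g' z‖ ∂σ := by
    refine norm_integral_le_of_norm_le (hg.sub hg3).norm (Eventually.of_forall fun z => ?_)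
    rw [norm_mul, Complex.norm_real]
    exact mul_le_of_le_one_right (norm_nonneg _) (hp.2 z)
  rw [h2]
  refine (norm_add_le _ _).trans ?_
  linarith

end Pool.Agent.H90.PK
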